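import Pool.Agent.Q269.GR.StF

/-!
# Project GR (helper269), job PAR: parities of valuations in `k(t)`
-/

set_option autoImplicit false

open scoped Classical
open Finset Polynomial UniqueFactorizationMonoid

namespace Pool.Agent.Q102.GR.PAR

open Pool.Agent.Q269.GR

variable {k K : Type} [Field k] [Field K] [Algebra k[X] K] [IsFractionRing k[X] K]

/-- the parity of the exponent of `P` in the polynomial `f` -/
noncomputable def cn (P f : k[X]) : F2 := (Multiset.count P (normalizedFactors f) : F2)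

lemma cn_mul (P : k[X]) {f g : k[X]} (hf : f ≠ 0) (hg : g ≠ 0) : cn P (f * g) = cn P f + cn P g := by
  unfold cn
  rw [normalizedFactors_mul hf hg, Multiset.count_add, Nat.cast_add]

lemma cn_sq (P f : k[X]) : cn P (f ^ 2) = 0 := by
  unfold cn
  rw [normalizedFactors_pow, Multiset.count_nsmul, Nat.cast_mul]
  have : ((2 : ℕ) : F2) = 0 := rfl
  rw [this, zero_mul]

lemma num_div_den (u : K) : algebraMap k[X] K (IsFractionRing.num k[X] u) /
    algebraMap k[X] K (IsFractionRing.den k[X] u : k[X]) = u :=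
  IsFractionRing.mk'_num_den' k[X] u

lemma den_ne (u : K) : (IsFractionRing.den k[X] u : k[X]) ≠ 0 := nonZeroDivisors.coe_ne_zero _

lemma map_ne {f : k[X]} (hf : f ≠ 0) : algebraMap k[X] K f ≠ 0 := by
  rw [Ne, IsFractionRing.to_map_eq_zero_iff]; exact hf

lemma num_ne {u : K} (hu : u ≠ 0) : IsFractionRing.num k[X] u ≠ 0 := by
  intro h
  apply hu
  rw [← num_div_den (k := k) u, h, map_zero, zero_div]

lemma pa_eq (P : k[X]) (u : K) : pa K P u =
    cn P (IsFractionRing.num k[X] u * (IsFractionRing.den k[X] u : k[X])) := rfl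

lemma u_eq (u : K) : u * algebraMap k[X] K (IsFractionRing.den k[X] u : k[X]) ^ 2 =
    algebraMap k[X] K (IsFractionRing.num k[X] u * (IsFractionRing.den k[X] u : k[X])) := by
  have h := num_div_den (k := k) u
  have hd := map_ne (K := K) (den_ne (k := k) u)
  rw [div_eq_iff hd] at h
  rw [map_mul, h]; ring

lemma pa1 (P f : k[X]) (u c : K) (hc : c ≠ 0) (hf : f ≠ 0) (h : u * c ^ 2 = algebraMap k[X] K f) :
    pa K P u = cn P f := by
  have hu : u ≠ 0 := by
    rintro rfl
    rw [zero_mul] at h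
    exact map_ne (K := K) hf h.symm
  have hN := num_ne (k := k) hu
  have hD := den_ne (k := k) u
  have hc1 := num_ne (k := k) hc
  have hc2 := den_ne (k := k) c
  have e1 := u_eq (k := k) u
  have e2 := num_div_den (k := k) c
  have hD' := map_ne (K := K) hc2
  rw [div_eq_iff hD'] at e2
  have key : (IsFractionRing.num k[X] u * (IsFractionRing.den k[X] u : k[X])) *
      (IsFractionRing.num k[X] c) ^ 2 =
      f * (((IsFractionRing.den k[X] u : k[X])) * (IsFractionRing.den k[X] c : k[X])) ^ 2 := by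
    apply IsFractionRing.injective k[X] K
    rw [map_mul, ← e1, map_pow, map_mul, map_pow, map_mul, ← h, e2]
    ring
  have h2 := congrArg (cn P) key
  rw [cn_mul P (mul_ne_zero hN hD) (pow_ne_zero 2 hc1), cn_mul P hf (pow_ne_zero 2 (mul_ne_zero hD hc2)),
    cn_sq, cn_sq, add_zero, add_zero] at h2
  rw [pa_eq, h2]

lemma pa2 (P : k[X]) (u u' : K) (hu : u ≠ 0) (hu' : u' ≠ 0) : pa K P (u * u') = pa K P u + pa K P u' := by
  rw [pa1 P ((IsFractionRing.num k[X] u * (IsFractionRing.den k[X] u : k[X])) *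
    (IsFractionRing.num k[X] u' * (IsFractionRing.den k[X] u' : k[X]))) (u * u')
    (algebraMap k[X] K (IsFractionRing.den k[X] u : k[X]) *
      algebraMap k[X] K (IsFractionRing.den k[X] u' : k[X]))
    (mul_ne_zero (map_ne (den_ne u)) (map_ne (den_ne u')))
    (mul_ne_zero (mul_ne_zero (num_ne hu) (den_ne u)) (mul_ne_zero (num_ne hu') (den_ne u'))) ?_,
    cn_mul P (mul_ne_zero (num_ne hu) (den_ne u)) (mul_ne_zero (num_ne hu') (den_ne u')), pa_eq, pa_eq]
  rw [map_mul, ← u_eq u, ← u_eq u']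
  ring

lemma dec {P f : k[X]} (hP : P.Monic) (hPi : Irreducible P) (hf : f ≠ 0) :
    ∃ q, f = P ^ (Multiset.count P (normalizedFactors f)) * q ∧ ¬ P ∣ q := by
  have h1 := emultiplicity_eq_count_normalizedFactors hPi hf
  have h2 : normalize P = P := hP.normalize_eq_self
  rw [h2] at h1
  have hfin : FiniteMultiplicity P f := by
    rw [finiteMultiplicity_iff_emultiplicity_ne_top, h1]
    exact ENat.natCast_ne_top _
  have h3 : multiplicity P f = Multiset.count P (normalizedFactors f) := multiplicity_eq_of_emultiplicity_eq_some h1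
  obtain ⟨q, hq, hn⟩ := hfin.exists_eq_pow_mul_and_not_dvd
  rw [h3] at hq
  exact ⟨q, hq, hn⟩

theorem val_gen (v : IsDedekindDomain.HeightOneSpectrum k[X]) {π : k[X]} (hπ : Irreducible π)
    (hv : ∀ p, p ∈ v.asIdeal ↔ π ∣ p) :
    v.valuation K (algebraMap k[X] K π) = WithZero.exp (-1 : ℤ) := by
  rw [v.valuation_of_algebraMap]
  refine v.intValuation_singleton hπ.ne_zero ?_
  ext p
  rw [hv, Ideal.mem_span_singleton]

theorem val_one (v : IsDedekindDomain.HeightOneSpectrum k[X]) {p : k[X]} :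
    v.valuation K (algebraMap k[X] K p) = 1 ↔ p ∉ v.asIdeal := by
  rw [v.valuation_of_algebraMap, IsDedekindDomain.HeightOneSpectrum.intValuation_eq_one_iff]

theorem sq_exp {n : ℤ} : IsSquare (WithZero.exp n : WithZero (Multiplicative ℤ)) ↔ Even n := by
  constructor
  · rintro ⟨r, hr⟩
    have hr0 : r ≠ 0 := by
      rintro rfl
      rw [mul_zero] at hr
      exact WithZero.exp_ne_zero hr
    obtain ⟨s, rfl⟩ := WithZero.ne_zero_iff_exists.1 hr0
    have h1 : ((Multiplicative.ofAdd n : Multiplicative ℤ) : WithZero (Multiplicative ℤ)) =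
        ((s * s : Multiplicative ℤ) : WithZero (Multiplicative ℤ)) := by
      rw [WithZero.coe_mul]
      exact hr
    rw [WithZero.coe_inj] at h1
    exact ⟨Multiplicative.toAdd s, congrArg Multiplicative.toAdd h1⟩
  · rintro ⟨m, rfl⟩
    exact ⟨WithZero.exp m, WithZero.exp_add m m⟩

lemma pa3 (v : IsDedekindDomain.HeightOneSpectrum k[X]) (P : k[X]) (u : K) (hP : P.Monic)
    (hPi : Irreducible P) (hv : v.asIdeal = Ideal.span {P}) (hu : u ≠ 0) :
    pa K P u = 0 ↔ IsSquare (v.valuation K u) := by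
  have hmem : ∀ p, p ∈ v.asIdeal ↔ P ∣ p := fun p => by rw [hv, Ideal.mem_span_singleton]
  set N := IsFractionRing.num k[X] u * (IsFractionRing.den k[X] u : k[X]) with hN
  have hN0 : N ≠ 0 := mul_ne_zero (num_ne hu) (den_ne u)
  obtain ⟨q, hq, hn⟩ := dec hP hPi hN0
  have e1 := u_eq (k := k) u
  have hv1 : v.valuation K (algebraMap k[X] K N) =
      WithZero.exp (-((Multiset.count P (normalizedFactors N) : ℕ) : ℤ)) := by
    conv_lhs => rw [hq]
    rw [map_mul, map_mul, map_pow, map_pow, val_gen v hPi hmem,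
      (val_one v).2 (by rw [hmem]; exact hn), mul_one, ← WithZero.exp_nsmul]
    congr 1
    simp
  have hd : v.valuation K (algebraMap k[X] K (IsFractionRing.den k[X] u : k[X])) ≠ 0 := by
    rw [Ne, Valuation.zero_iff]; exact map_ne (den_ne u)
  have h4 : IsSquare (v.valuation K u) ↔ IsSquare (v.valuation K (algebraMap k[X] K N)) := by
    rw [← e1, map_mul, map_pow]
    constructor
    · rintro ⟨y, hy⟩
      exact ⟨y * v.valuation K (algebraMap k[X] K (IsFractionRing.den k[X] u : k[X])), by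
        rw [hy]; rw [pow_two]; exact mul_mul_mul_comm _ _ _ _⟩
    · rintro ⟨y, hy⟩
      refine ⟨y * (v.valuation K (algebraMap k[X] K (IsFractionRing.den k[X] u : k[X])))⁻¹, ?_⟩
      rw [mul_mul_mul_comm, ← hy, ← mul_inv, ← pow_two, mul_assoc, mul_inv_cancel₀ (pow_ne_zero 2 hd),
        mul_one]
  rw [h4, hv1, sq_exp, even_neg, Int.even_coe_nat, pa_eq, ← hN]
  exact ZMod.natCast_eq_zero_iff_even

lemma pa4 (u : K) (hu : u ≠ 0) (h : ∀ P : k[X], P.Monic → Irreducible P → pa K P u = 0) :
    ∃ (c : k) (y : K), c ≠ 0 ∧ y ≠ 0 ∧ u = algebraMap k[X] K (C c) * y ^ 2 := by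
  set N := IsFractionRing.num k[X] u * (IsFractionRing.den k[X] u : k[X]) with hN
  have hN0 : N ≠ 0 := mul_ne_zero (num_ne hu) (den_ne u)
  obtain ⟨w, hw⟩ := prod_normalizedFactors hN0
  obtain ⟨c, hc, hcw⟩ := Polynomial.isUnit_iff.1 w.isUnit
  have hprod : (normalizedFactors N).prod =
      (∏ P ∈ (normalizedFactors N).toFinset, P ^ (Multiset.count P (normalizedFactors N) / 2)) ^ 2 := by
    rw [Finset.prod_multiset_count, ← Finset.prod_pow]
    refine Finset.prod_congr rfl fun P hP => ?_
    rw [← pow_mul]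
    congr 1
    rw [Multiset.mem_toFinset] at hP
    have h1 : Irreducible P := irreducible_of_normalized_factor P hP
    have h2 : P.Monic := by
      have h3 : normalize P = P := normalize_normalized_factor P hP
      rw [← h3]
      exact Polynomial.monic_normalize h1.ne_zero
    have h3 := h P h2 h1
    rw [pa_eq, ← hN, cn, ZMod.natCast_eq_zero_iff_even] at h3
    exact (Nat.div_mul_cancel h3.two_dvd).symm
  set T := ∏ P ∈ (normalizedFactors N).toFinset, P ^ (Multiset.count P (normalizedFactors N) / 2) with hT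
  have hT0 : T ≠ 0 := by
    intro h0
    rw [h0] at hprod
    rw [hprod] at hw
    apply hN0
    rw [← hw]
    ring
  have e1 := u_eq (k := k) u
  have hd := map_ne (K := K) (den_ne (k := k) u)
  refine ⟨c, algebraMap k[X] K T / algebraMap k[X] K (IsFractionRing.den k[X] u : k[X]), hc.ne_zero,
    div_ne_zero (map_ne hT0) hd, ?_⟩
  rw [← hN, ← hw, hprod, ← hcw, map_mul, map_pow] at e1
  rw [div_pow]
  field_simp
  rw [e1]
  ring

theorem t_PAR : S_PAR := by
  intro k K _ _ _ _
  exact ⟨fun P f u c hc hf h => pa1 P f u c hc hf h, fun P u u' hu hu' => pa2 P u u' hu hu',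
    fun v P u hP hPi hv hu => pa3 v P u hP hPi hv hu, fun u hu h => pa4 u hu h⟩

end Pool.Agent.Q102.GR.PAR
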